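import Pool.Agent.V11112.GB6

/-! The set of points whose Gauss-map asymptotic set has dimension exactly `1/2` has Hausdorff
dimension one. -/

open Filter Topology
open scoped ENNReal

namespace Pool.Agent.Results.MP_034ad4_an.ThetaHalfFullDim

/-- The Gauss map: `gauss x` is the fractional part of `1 / x` (and `gauss 0 = 0`, since
`1 / 0 = 0` here). -/
noncomputable def gauss (x : ℝ) : ℝ := Int.fract (1 / x)

/-- The asymptotic set of `x`. -/
def AS (x : ℝ) : Set ℝ :=
  {y | y ∈ Set.Ico (0 : ℝ) 1 ∧ Tendsto (fun n => |gauss^[n] x - gauss^[n] y|) atTop (𝓝 0)}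

/-- The set of points whose asymptotic set has Hausdorff dimension exactly `α`. -/
def Theta (α : ℝ≥0∞) : Set ℝ := {x | x ∈ Set.Ico (0 : ℝ) 1 ∧ dimH (AS x) = α}

theorem result : dimH (Theta (1 / 2)) = 1 := by
  have h1 : ∀ x, AS x = V11112.GA.AS x := by
    intro x
    ext y
    constructor
    · rintro ⟨⟨h0, h1⟩, h2⟩
      exact ⟨h0, h1, h2⟩
    · rintro ⟨h0, h1, h2⟩
      exact ⟨⟨h0, h1⟩, h2⟩
  have hhalf : ENNReal.ofReal (1 / 2) = 1 / 2 := by
    rw [ENNReal.ofReal_div_of_pos (by norm_num)]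
    simp
  have h2 := V11112.GB.theta_dim
  rw [hhalf] at h2
  have h3 : Theta (1 / 2) =
      {x : ℝ | (0 ≤ x ∧ x < 1) ∧ dimH (V11112.GA.AS x) = (1 / 2 : ℝ≥0∞)} := by
    ext x
    simp only [Theta, h1, Set.mem_Ico]
  rw [h3]
  exact h2

end Pool.Agent.Results.MP_034ad4_an.ThetaHalfFullDim
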